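import Mathlib

namespace Pool.Agent.MP_4faeaf_lc.Conv

variable {X : Type}

/-- The first `n` moves of `A`, latest first. -/
def hist (A : ℕ → Set X) : ℕ → List (Set X)
  | 0 => []
  | n + 1 => A n :: hist A n

/-- The current set after the cuts in the list, if Choose keeps the cut `A` exactly when `s`
says so and the rest of the current set otherwise. -/
def cur (s : List (Set X) → Bool) : List (Set X) → Set X
  | [] => Set.univ
  | A :: l => if s (A :: l) then A else cur s l \ A

/-- Choose has a winning strategy in the cut and choose game of length omega on `X`. -/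
def ChooseWins (X : Type) : Prop :=
  ∃ s : List (Set X) → Bool, ∀ A : ℕ → Set X, (∀ n, A n ⊆ cur s (hist A n)) →
    (⋂ n, cur s (hist A n)).Nontrivial

/-- Choose has a strategy that keeps two points at each finite stage and one point at the end. -/
def Survives (X : Type) : Prop :=
  ∃ s : List (Set X) → Bool, ∀ A : ℕ → Set X, (∀ n, A n ⊆ cur s (hist A n)) →
    (∀ n, (cur s (hist A n)).Nontrivial) ∧ (⋂ n, cur s (hist A n)).Nonempty

/-- Nonempty has a winning strategy in the ideal game of Galvin, Jech and Magidor. -/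
def NonemptyWins (F : Filter X) : Prop :=
  ∃ t : List (Set X) → Set X, t [] = Set.univ ∧
    (∀ (A : ℕ → Set X) (n : ℕ), (∀ k ≤ n, A k ⊆ t (hist A k) ∧ (A k)ᶜ ∉ F) →
      t (hist A (n + 1)) ⊆ A n ∧ (t (hist A (n + 1)))ᶜ ∉ F) ∧
    ∀ A : ℕ → Set X, (∀ k, A k ⊆ t (hist A k) ∧ (A k)ᶜ ∉ F) → (⋂ k, A k).Nonempty

end Pool.Agent.MP_4faeaf_lc.Conv
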