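import Pool.Agent.MP_4faeaf_lc.Conv.Defs
import Pool.Agent.MP_e34318_lc.Cc.Normal

namespace Pool.Agent.MP_4faeaf_lc.Conv

open Cardinal Set Pool.Agent.MP_e34318_lc Pool.Agent.MP_e34318_lc.Cc

/-- Systems of positions. -/
structure Sys (S : Type) where
  T : Type
  root : T
  R : T → T → Prop
  X : T → Set S
  trans : ∀ a b c, R a b → R b c → R a c
  mono : ∀ a b, R a b → X a ⊆ X b
  meas : ∀ q A, ∃ q', R q' q ∧ (X q' ⊆ A ∨ X q' ⊆ Aᶜ)
  win : ∀ c : ℕ → T, (∀ n, R (c (n + 1)) (c n)) → ∃ a, ∀ n, a ∈ X (c n)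
  nt : ∀ q, (X q).Nontrivial

theorem exists_chain {α : Type*} {r : α → α → Prop} (h : ∀ a, ∃ b, r b a) (a : α) :
    ∃ c : ℕ → α, c 0 = a ∧ ∀ n, r (c (n + 1)) (c n) := by
  choose f hf using h
  exact ⟨fun n => Nat.rec a (fun _ x => f x) n, rfl, fun n => hf _⟩

theorem hist_congr {X : Type} {A B : ℕ → Set X} {n : ℕ} (h : ∀ k < n, A k = B k) :
    hist A n = hist B n := by
  induction n with
  | zero => rfl
  | succ n ih =>
    simp only [hist, h n (Nat.lt_succ_self n), ih fun k hk => h k (Nat.lt_succ_of_lt hk)]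

theorem cur_succ {X : Type} (s : List (Set X) → Bool) {A : Set X} {l : List (Set X)}
    (h : A ⊆ cur s l) : cur s (A :: l) ⊆ cur s l ∧ (cur s (A :: l) ⊆ A ∨ cur s (A :: l) ⊆ Aᶜ) := by
  simp only [cur]
  split_ifs
  exacts [⟨h, Or.inl Subset.rfl⟩, ⟨sdiff_subset, Or.inr fun x hx => hx.2⟩]

theorem sys_of_surv {S : Type} (h : Survives S) : Nonempty (Sys S) := by
  obtain ⟨s, hs⟩ := h
  let T := {p : (ℕ → Set S) × ℕ // ∀ k < p.2, p.1 k ⊆ cur s (hist p.1 k)}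
  let R : T → T → Prop := fun p q => q.1.2 < p.1.2 ∧ ∀ k < q.1.2, p.1.1 k = q.1.1 k
  let X : T → Set S := fun p => cur s (hist p.1.1 p.1.2)
  have tr : ∀ a b c, R a b → R b c → R a c := fun a b c h₁ h₂ =>
    ⟨h₂.1.trans h₁.1, fun k hk => (h₁.2 k (hk.trans h₂.1)).trans (h₂.2 k hk)⟩
  have meas : ∀ q A, ∃ q', R q' q ∧ (X q' ⊆ A ∨ X q' ⊆ Aᶜ) := by
    rintro ⟨⟨B, n⟩, hB⟩ A
    have e : ∀ k ≤ n, hist (Function.update B n (A ∩ cur s (hist B n))) k = hist B k :=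
      fun k hk => hist_congr fun j hj => Function.update_of_ne (by omega) _ _
    refine ⟨⟨(Function.update B n (A ∩ cur s (hist B n)), n + 1), fun k hk => ?_⟩,
      ⟨Nat.lt_succ_self n, fun k hk => Function.update_of_ne (ne_of_lt hk) _ _⟩, ?_⟩
    · rw [e k (Nat.lt_succ_iff.1 hk)]
      rcases Nat.lt_succ_iff_lt_or_eq.1 hk with h | rfl
      · simp only [Function.update_of_ne h.ne]; exact hB k h
      · simp
    · simp only [X, hist, e n le_rfl, Function.update_self]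
      obtain ⟨h₁, h₂ | h₂⟩ := cur_succ s (A := A ∩ cur s (hist B n)) inter_subset_right
      exacts [Or.inl fun x hx => (h₂ hx).1, Or.inr fun x hx e => h₂ hx ⟨e, h₁ hx⟩]
  have win : ∀ c : ℕ → T, (∀ n, R (c (n + 1)) (c n)) →
      (∀ n, (X (c n)).Nontrivial) ∧ (⋂ n, X (c n)).Nonempty := by
    intro c hc
    have hR : ∀ m n, m < n → R (c n) (c m) := fun m n h => by
      induction n, h using Nat.le_induction with
      | base => exact hc m
      | succ n _ ih => exact tr _ _ _ (hc n) ih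
    have hl : ∀ n, n ≤ (c n).1.2 := fun n => by
      induction n with
      | zero => exact Nat.zero_le _
      | succ n ih => exact Nat.succ_le_of_lt (ih.trans_lt (hc n).1)
    have e : ∀ n, ∀ k < (c n).1.2, (c (k + 1)).1.1 k = (c n).1.1 k := fun n k hk => by
      rcases lt_trichotomy n (k + 1) with h | rfl | h
      exacts [(hR _ _ h).2 k hk, rfl, ((hR _ _ h).2 k (hl (k + 1))).symm]
    obtain ⟨k₁, k₂⟩ := hs (fun k => (c (k + 1)).1.1 k) fun n => by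
      rw [hist_congr (B := (c (n + 1)).1.1) fun k hk => e (n + 1) k (hk.trans (hl (n + 1)))]
      exact (c (n + 1)).2 n (hl (n + 1))
    refine ⟨fun n => ?_, k₂.mono fun x hx => mem_iInter.2 fun n => ?_⟩
    · have := k₁ (c n).1.2
      rwa [hist_congr (e n)] at this
    · have := mem_iInter.1 hx (c n).1.2
      rwa [hist_congr (e n)] at this
  refine ⟨⟨T, ⟨(fun _ => ∅, 0), by simp⟩, R, X, tr, ?_, meas, fun c hc => ?_, fun q => ?_⟩⟩
  · have key : ∀ (A : ℕ → Set S) (n m : ℕ), n ≤ m → (∀ k < m, A k ⊆ cur s (hist A k)) →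
        cur s (hist A m) ⊆ cur s (hist A n) := by
      intro A n m h
      induction m, h using Nat.le_induction with
      | base => exact fun _ => Subset.rfl
      | succ m _ ih =>
        exact fun hA => (cur_succ s (hA m (Nat.lt_succ_self m))).1.trans
          (ih fun k hk => hA k (Nat.lt_succ_of_lt hk))
    intro p q h
    simp only [X, ← hist_congr h.2]
    exact key _ _ _ h.1.le p.2
  · obtain ⟨a, ha⟩ := (win c hc).2
    exact ⟨a, mem_iInter.1 ha⟩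
  · obtain ⟨c, rfl, hc⟩ := exists_chain (r := R) (fun a => (meas a ∅).imp fun _ h => h.1) q
    exact (win c hc).1 0

theorem surv_of_sys {S : Type} (Z : Sys S) : Survives S := by
  classical
  choose nx n1 n2 using Z.meas
  let pos : List (Set S) → Z.T := fun l => List.rec Z.root (fun A _ q => nx q A) l
  let s : List (Set S) → Bool := fun l => decide (Z.X (pos l) ⊆ l.headD ∅)
  have key : ∀ l, Z.X (pos l) ⊆ cur s l := fun l => by
    induction l with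
    | nil => exact subset_univ _
    | cons A l ih =>
      simp only [cur]
      split_ifs with c
      · simpa [s] using c
      · exact fun x hx => ⟨ih (Z.mono _ _ (n1 _ A) hx),
          (n2 (pos l) A).resolve_left (by simpa [s] using c) hx⟩
  refine ⟨s, fun A _ => ⟨fun n => (Z.nt _).mono (key _), ?_⟩⟩
  obtain ⟨a, ha⟩ := Z.win (fun n => pos (hist A n)) fun n => n1 _ _
  exact ⟨a, mem_iInter.2 fun n => key _ (ha n)⟩

namespace Sys

variable {S S' : Type} (Z : Sys S)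

/-- Projection of the part below `q₀` along a map that is never constant there. -/
noncomputable def proj (h : S → S') (q₀ : Z.T)
    (H : ∀ q, Z.R q q₀ → (h '' Z.X q).Nontrivial) : Sys S' where
  T := {q // Z.R q q₀}
  root := ⟨(Z.meas q₀ ∅).choose, (Z.meas q₀ ∅).choose_spec.1⟩
  R a b := Z.R a.1 b.1
  X q := h '' Z.X q.1
  trans a b c := Z.trans a.1 b.1 c.1
  mono a b r := image_mono (Z.mono _ _ r)
  meas q A := by
    obtain ⟨q', h₁, h₂⟩ := Z.meas q.1 (h ⁻¹' A)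
    exact ⟨⟨q', Z.trans _ _ _ h₁ q.2⟩, h₁, h₂.imp image_subset_iff.2 image_subset_iff.2⟩
  win c hc := by
    obtain ⟨a, ha⟩ := Z.win (fun n => (c n).1) hc
    exact ⟨h a, fun n => mem_image_of_mem h (ha n)⟩
  nt q := H q.1 q.2

theorem split (e : S → ℕ → Bool) (he : Function.Injective e) (q : Z.T) :
    ∃ n, ∀ b, ∃ q', Z.R q' q ∧ ∀ a ∈ Z.X q', e a n = b := by
  by_contra h
  push Not at h
  choose y hy using h
  obtain ⟨q₁, h₁, h₂⟩ := Z.meas q {a | ∀ n, e a n ≠ y n}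
  rcases h₂ with h₂ | h₂
  · obtain ⟨a, ha, b, hb, hne⟩ := Z.nt q₁
    refine hne (he (funext fun n => ?_))
    have k₁ := h₂ ha n
    have k₂ := h₂ hb n
    revert k₁ k₂
    cases e a n <;> cases e b n <;> cases y n <;> simp
  obtain ⟨c, h0, hc⟩ := exists_chain (α := {p // Z.R p q} × ℕ)
    (r := fun p' p => Z.R p'.1.1 p.1.1 ∧ p'.2 = p.2 + 1 ∧ ∀ a ∈ Z.X p'.1.1, e a p.2 ≠ y p.2)
    (by
      rintro ⟨⟨p, hp⟩, n⟩
      obtain ⟨p', k₁, k₂⟩ := Z.meas p {a | e a n = y n}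
      refine ⟨(⟨p', Z.trans _ _ _ k₁ hp⟩, n + 1), k₁, rfl, k₂.resolve_left fun k => ?_⟩
      obtain ⟨a, ha, hne⟩ := hy n p' (Z.trans _ _ _ k₁ hp)
      exact hne (k ha)) (⟨q₁, h₁⟩, 0)
  obtain ⟨a, ha⟩ := Z.win (fun n => (c n).1.1) fun n => (hc n).1
  have hn : ∀ n, (c n).2 = n := fun n => by
    induction n with
    | zero => rw [h0]
    | succ n ih => rw [(hc n).2.1, ih]
  refine h₂ (show a ∈ Z.X q₁ by simpa [h0] using ha 0) fun n => ?_
  simpa [hn] using (hc n).2.2 a (ha (n + 1))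

end Sys

theorem exists_inj_sel {α J : Type} {θ : Cardinal.{0}} (hJ : #J ≤ θ) (F : J → Set α)
    (hF : ∀ j, θ ≤ #(F j)) : ∃ f : J → α, Function.Injective f ∧ ∀ j, f j ∈ F j := by
  obtain ⟨e⟩ : Nonempty (J ↪ θ.ord.ToType) := by rw [← le_def, mk_ord_toType]; exact hJ
  have wf : WellFounded (fun a b => e a < e b) := InvImage.wf e wellFounded_lt
  have hb : ∀ b (ih : ∀ a, e a < e b → α), ∃ x ∈ F b, ∀ a h, ih a h ≠ x := by
    intro b ih
    obtain ⟨x, hx, h⟩ := exists_mem_diff (hF b)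
      (U := range fun a : {a // e a < e b} => ih a.1 a.2) (mk_range_le.trans_lt
        (lt_of_le_of_lt (mk_le_of_injective (f := fun a : {a // e a < e b} =>
          (⟨e a.1, a.2⟩ : Iio (e b))) fun a a' h =>
            Subtype.ext (e.injective (congrArg Subtype.val h))) (mk_Iio_tt _)))
    exact ⟨x, hx, fun a ha e => h ⟨⟨a, ha⟩, e⟩⟩
  choose G h1 h2 using hb
  have key : ∀ a b, e a < e b → wf.fix G a ≠ wf.fix G b := fun a b h => by
    rw [wf.fix_eq G b]; exact h2 b (fun y _ => wf.fix G y) a h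
  refine ⟨wf.fix G, fun a b h => ?_, fun j => by rw [wf.fix_eq]; exact h1 _ _⟩
  rcases lt_trichotomy (e a) (e b) with c | c | c
  exacts [absurd h (key a b c), e.injective c, absurd h.symm (key b a c)]

/-- The first `n` bits. -/
def bits (x : ℕ → Bool) : ℕ → List Bool
  | 0 => []
  | n + 1 => x n :: bits x n

theorem continuum_lt {S : Type} (Z : Sys S) : 𝔠 < #S := by
  classical
  by_contra hS
  have hc : #(ℕ → Bool) = 𝔠 := by simp
  obtain ⟨e⟩ : Nonempty (S ↪ (ℕ → Bool)) := by rw [← le_def, hc]; exact not_lt.1 hS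
  let φ : (List Bool → Bool) → (ℕ → Bool) → ℕ → Bool := fun d x n => d (bits x (n + 1))
  obtain ⟨f, f1, f2⟩ := exists_inj_sel (θ := 𝔠) (J := (List Bool → Bool) × Bool) (by simp)
    (fun j => if Function.Injective (φ j.1) then range (φ j.1) else Set.univ) fun j => by
      split_ifs with h
      · rw [mk_range_eq _ h, hc]
      · rw [mk_univ, hc]
  obtain ⟨q₁, -, hq₁⟩ := Z.meas Z.root (e ⁻¹' range fun d => f (d, true))
  choose sn sp s1 s2 using Z.split e e.injective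
  have hd : ∀ q n, ∃ q', Z.R q' q ∧ ∃ b, ∀ a ∈ Z.X q', e a n = b := fun q n => by
    obtain ⟨q', h₁, h₂ | h₂⟩ := Z.meas q {a | e a n = true}
    · exact ⟨q', h₁, true, h₂⟩
    · exact ⟨q', h₁, false, fun a ha => by simpa using h₂ ha⟩
  choose dq d1 db d2 using hd
  let node : List Bool → Z.T := fun l => List.rec q₁ (fun b l q => dq (sp q b) l.length) l
  let d : List Bool → Bool := fun l => List.casesOn l true fun b l => db (sp (node l) b) l.length
  have hlen : ∀ x n, (bits x n).length = n := fun x n => by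
    induction n with
    | zero => rfl
    | succ n ih => simp [bits, ih]
  choose a ha using fun x : ℕ → Bool => Z.win (fun n => node (bits x n))
    fun n => Z.trans _ _ _ (d1 _ _) (s1 _ _)
  have hφ : ∀ x, φ d x = e (a x) := fun x => funext fun n => by
    have := d2 _ _ _ (ha x (n + 1))
    simp only [hlen] at this
    simp only [φ, d, bits, hlen, this]
    rfl
  have hinj : Function.Injective (φ d) := by
    intro x y h
    rw [hφ, hφ] at h
    have hb : ∀ n, bits x n = bits y n := fun n => by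
      induction n with
      | zero => rfl
      | succ n ih =>
        have k₁ := s2 _ _ _ (Z.mono _ _ (d1 _ _) (ha x (n + 1)))
        have k₂ := s2 _ _ _ (Z.mono _ _ (d1 _ _) (ha y (n + 1)))
        simp only [bits, ih]
        rw [ih, h] at k₁
        rw [k₁.symm.trans k₂]
    exact funext fun n => (List.cons.inj (hb (n + 1))).1
  have k : ∀ b, ∃ x ∈ Z.X q₁, e x = f (d, b) := fun b => by
    have := f2 (d, b)
    rw [if_pos hinj] at this
    obtain ⟨x, hx⟩ := this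
    exact ⟨a x, ha x 0, (hφ x).symm.trans hx⟩
  rcases hq₁ with h | h
  · obtain ⟨x, hx, e'⟩ := k false
    obtain ⟨d', h'⟩ := h hx
    simpa using f1 (h'.trans e')
  · obtain ⟨x, hx, e'⟩ := k true
    exact h hx ⟨d, e'.symm⟩

namespace Sys

variable {S S' : Type} (Z : Sys S)

theorem const (h : S → S') (hS : IsEmpty (Sys S')) (q : Z.T) :
    ∃ q', Z.R q' q ∧ (h '' Z.X q').Subsingleton := by
  by_contra hn
  push Not at hn
  exact hS.elim (Z.proj h q hn)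

/-- The filter of sets that are chosen densely below `q`. -/
def fil (q : Z.T) : Filter S where
  sets := {A | ∀ q', Z.R q' q → ¬ Z.X q' ⊆ Aᶜ}
  univ_sets := fun q' _ h => by
    obtain ⟨a, ha⟩ := (Z.nt q').nonempty
    exact h ha trivial
  sets_of_superset := fun h hAB q' r e => h q' r (e.trans (compl_subset_compl.2 hAB))
  inter_sets := by
    intro A B hA hB q' r e
    obtain ⟨q'', r', h | h⟩ := Z.meas q' A
    · exact hB q'' (Z.trans _ _ _ r' r) fun x hx hb => e (Z.mono _ _ r' hx) ⟨h hx, hb⟩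
    · exact hA q'' (Z.trans _ _ _ r' r) h

variable {Z}

theorem pos_iff {q : Z.T} {A : Set S} : Aᶜ ∉ Z.fil q ↔ ∃ q', Z.R q' q ∧ Z.X q' ⊆ A := by
  change ¬ (∀ q', Z.R q' q → ¬ Z.X q' ⊆ Aᶜᶜ) ↔ _
  simp

theorem fil_le {q q' : Z.T} (r : Z.R q' q) : Z.fil q' ≤ Z.fil q :=
  fun _ h p r' => h p (Z.trans _ _ _ r' r)

theorem X_mem (q : Z.T) : Z.X q ∈ Z.fil q := fun q' r e => by
  obtain ⟨a, ha⟩ := (Z.nt q').nonempty
  exact e ha (Z.mono _ _ r ha)

theorem fil_neBot (q : Z.T) : (Z.fil q).NeBot := ⟨fun e => by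
  obtain ⟨q', r, -⟩ := Z.meas q ∅
  exact (Filter.empty_mem_iff_bot.2 e) q' r (by simp)⟩

theorem fil_single (q : Z.T) (x : S) : {x}ᶜ ∈ Z.fil q := fun q' _ e => by
  rw [compl_compl] at e
  exact (Z.nt q').not_subsingleton (subsingleton_singleton.anti e)

theorem fil_complete {μ : Cardinal.{0}} (hmin : ∀ S : Type, #S < μ → IsEmpty (Sys S))
    (q : Z.T) : CardinalInterFilter (Z.fil q) μ := by
  refine ⟨fun D hD hm q' r e => ?_⟩
  obtain ⟨a₀, h₀⟩ := (Z.nt q').nonempty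
  have k : ∀ a ∈ Z.X q', ∃ s : D, a ∉ s.1 := fun a ha => by
    simpa using e ha
  have : Nonempty D := ⟨(k a₀ h₀).choose⟩
  choose! h hh using k
  obtain ⟨p, r', c⟩ := Z.const h (hmin _ hD) q'
  obtain ⟨a, ha⟩ := (Z.nt p).nonempty
  refine hm _ (h a).2 p (Z.trans _ _ _ r' r) fun b hb => ?_
  rw [c (mem_image_of_mem h ha) (mem_image_of_mem h hb)]
  exact hh b (Z.mono _ _ r' hb)

/-- The product of two systems. -/
def prod {K K' : Type} (Z : Sys K) (Z' : Sys K') (e : S ≃ K × K') : Sys S where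
  T := Z.T × (K → Z'.T)
  root := (Z.root, fun _ => Z'.root)
  R a b := Z.R a.1 b.1 ∧ ∀ i ∈ Z.X a.1, Z'.R (a.2 i) (b.2 i)
  X a := {s | (e s).1 ∈ Z.X a.1 ∧ (e s).2 ∈ Z'.X (a.2 (e s).1)}
  trans a b c h₁ h₂ := ⟨Z.trans _ _ _ h₁.1 h₂.1, fun i hi =>
    Z'.trans _ _ _ (h₁.2 i hi) (h₂.2 i (Z.mono _ _ h₁.1 hi))⟩
  mono a b h s hs := ⟨Z.mono _ _ h.1 hs.1, Z'.mono _ _ (h.2 _ hs.1) hs.2⟩
  meas q A := by
    choose g g1 g2 using fun i => Z'.meas (q.2 i) {j | e.symm (i, j) ∈ A}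
    obtain ⟨p, r, k⟩ := Z.meas q.1 {i | Z'.X (g i) ⊆ {j | e.symm (i, j) ∈ A}}
    refine ⟨(p, g), ⟨r, fun i _ => g1 i⟩, k.imp (fun k s hs => ?_) fun k s hs => ?_⟩
    · simpa using k hs.1 hs.2
    · simpa using (g2 _).resolve_left (k hs.1) hs.2
  win c hc := by
    obtain ⟨i, hi⟩ := Z.win (fun n => (c n).1) fun n => (hc n).1
    obtain ⟨j, hj⟩ := Z'.win (fun n => (c n).2 i) fun n => (hc n).2 i (hi (n + 1))
    exact ⟨e.symm (i, j), fun n => by simpa using ⟨hi n, hj n⟩⟩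
  nt q := by
    obtain ⟨i, hi⟩ := (Z.nt q.1).nonempty
    obtain ⟨j, hj, j', hj', hne⟩ := Z'.nt (q.2 i)
    exact ⟨e.symm (i, j), by simpa using ⟨hi, hj⟩, e.symm (i, j'), by simpa using ⟨hi, hj'⟩,
      by simpa using hne⟩

variable {K : Type} [LinearOrder K]

/-- Normal systems. -/
def Norm (Z : Sys K) : Prop :=
  (∀ q i, ∃ q', Z.R q' q ∧ Z.X q' ⊆ Ioi i) ∧
    ∀ q (g : K → K), (∀ a ∈ Z.X q, g a < a) → ∃ q', Z.R q' q ∧ ∃ i, ∀ a ∈ Z.X q', g a = i

theorem fil_normal {Z : Sys K} (h : Z.Norm) (q : Z.T) : IsNormal (Z.fil q) := by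
  refine ⟨fil_neBot q, fun i q' _ e => ?_, fun A hA q' r e => ?_⟩
  · obtain ⟨q'', r', k⟩ := h.1 q' i
    obtain ⟨a, ha⟩ := (Z.nt q'').nonempty
    exact e (Z.mono _ _ r' ha) (k ha)
  · have : ∀ a, ∃ i, a ∈ Z.X q' → i < a ∧ a ∉ A i := fun a => by
      by_cases ha : a ∈ Z.X q'
      · have := e ha
        simp only [mem_compl_iff, mem_ofPred_eq, not_forall] at this
        obtain ⟨i, h₁, h₂⟩ := this
        exact ⟨i, fun _ => ⟨h₁, h₂⟩⟩
      · exact ⟨a, fun c => absurd c ha⟩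
    choose g hg using this
    obtain ⟨q'', r', i, k⟩ := h.2 q' g fun a ha => (hg a ha).1
    exact hA i q'' (Z.trans _ _ _ r' r) fun a ha => k a ha ▸ (hg a (Z.mono _ _ r' ha)).2

end Sys

theorem exists_norm {μ : Cardinal.{0}} (h0 : ℵ₀ ≤ μ) (hmin : ∀ S : Type, #S < μ → IsEmpty (Sys S))
    (Z : Sys μ.ord.ToType) : ∃ Z' : Sys μ.ord.ToType, Z'.Norm := by
  classical
  have tail : ∀ (Z : Sys μ.ord.ToType) q i, ∃ q', Z.R q' q ∧ Z.X q' ⊆ Ioi i := by
    intro Z q i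
    obtain ⟨q', r, h⟩ := Z.const (fun a => if h : a ≤ i then some (⟨a, h⟩ : Iic i) else none)
      (hmin _ (by
        rw [mk_option, ← Iio_insert]
        have h1 := one_lt_aleph0.trans_le h0
        exact add_lt_of_lt h0 (mk_insert_le.trans_lt (add_lt_of_lt h0 (mk_Iio_tt i) h1)) h1)) q
    refine ⟨q', r, fun c hc => ?_⟩
    by_contra hci
    obtain ⟨b, hb, hne⟩ := (Z.nt q').exists_ne c
    have := h (mem_image_of_mem _ hb) (mem_image_of_mem _ hc)
    rw [dif_pos (not_lt.1 hci : c ≤ i)] at this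
    split_ifs at this
    exact hne (by simpa using this)
  by_contra hn
  obtain ⟨c, -, hc⟩ := exists_chain
    (α := {p : Z.T × (μ.ord.ToType → μ.ord.ToType) // ∀ q, Z.R q p.1 → (p.2 '' Z.X q).Nontrivial})
    (r := fun p' p => Z.R p'.1.1 p.1.1 ∧ ∀ a ∈ Z.X p'.1.1, p'.1.2 a < p.1.2 a)
    (by
      rintro ⟨⟨q₁, f⟩, H⟩
      by_contra h
      refine hn ⟨Z.proj f q₁ H, tail _, fun q g hg => ?_⟩
      by_contra h'
      refine h ⟨⟨(q.1, g ∘ f), fun q' r => ?_⟩, q.2, fun a ha => hg _ (mem_image_of_mem f ha)⟩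
      by_contra k
      obtain ⟨a, ha⟩ := (Z.nt q').nonempty
      refine h' ⟨⟨q', Z.trans _ _ _ r q.2⟩, r, g (f a), ?_⟩
      rintro _ ⟨b, hb, rfl⟩
      exact not_nontrivial_iff.1 k (mem_image_of_mem _ hb) (mem_image_of_mem _ ha))
    ⟨(Z.root, id), fun q _ => by simpa using Z.nt q⟩
  obtain ⟨a, ha⟩ := Z.win (fun n => (c n).1.1) fun n => (hc n).1
  exact not_strictAnti_of_wellFoundedLT (fun n => (c n).1.2 a)
    (strictAnti_nat_of_succ_lt fun n => (hc n).2 a (ha (n + 1)))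

/-- A dense family of positive sets with a relation along which intersections are nonempty. -/
structure Good {S U : Type} (F : Filter S) (Y : U → Set S) (r : U → U → Prop) : Prop where
  dense : ∀ A, Aᶜ ∉ F → ∃ σ, Y σ ⊆ A
  pos : ∀ σ, (Y σ)ᶜ ∉ F
  step : ∀ σ A, A ⊆ Y σ → Aᶜ ∉ F → ∃ σ', r σ' σ ∧ Y σ' ⊆ A
  win : ∀ c : ℕ → U, (∀ n, r (c (n + 1)) (c n)) → ∃ a, ∀ n, a ∈ Y (c n)

theorem Good.precip {S U : Type} {F : Filter S} {Y : U → Set S} {r : U → U → Prop}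
    (h : Good F Y r) : Precipitous F := by
  intro S₀ h0 W hW hr
  obtain ⟨X₀, hX₀, k₀⟩ := part_meet (hW 0) Subset.rfl h0
  obtain ⟨σ₀, k₁⟩ := h.dense _ k₀
  obtain ⟨c, c0, hc⟩ := exists_chain (α := {p : ℕ × U × Set S // p.2.2 ∈ W p.1 ∧ Y p.2.1 ⊆ p.2.2})
    (r := fun p' p => p'.1.1 = p.1.1 + 1 ∧ r p'.1.2.1 p.1.2.1 ∧ p'.1.2.2 ⊆ p.1.2.2)
    (by
      rintro ⟨⟨n, σ, X⟩, hX, hσ⟩
      obtain ⟨X', hX', k⟩ := part_meet (hW (n + 1)) (hσ.trans ((hW n).prop.1 X hX).1) (h.pos σ)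
      obtain ⟨σ', k₁, k₂⟩ := h.step σ _ inter_subset_left k
      obtain ⟨X'', m₁, m₂⟩ := hr n X' hX'
      refine ⟨⟨(n + 1, σ', X'), hX', k₂.trans inter_subset_right⟩, rfl, k₁, ?_⟩
      have : X'' = X := by
        by_contra hne
        exact k (Filter.mem_of_superset ((hW n).prop.2 m₁ hX hne) (compl_subset_compl.2
          (subset_inter (inter_subset_right.trans m₂) (inter_subset_left.trans hσ))))
      exact this ▸ m₂)
    ⟨(0, σ₀, X₀), hX₀, k₁.trans inter_subset_right⟩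
  have hn : ∀ n, (c n).1.1 = n := fun n => by
    induction n with
    | zero => rw [c0]
    | succ n ih => rw [(hc n).1, ih]
  obtain ⟨a, ha⟩ := h.win (fun n => (c n).1.2.1) fun n => (hc n).2.1
  exact ⟨fun n => (c n).1.2.2, fun n => by simpa [hn] using (c n).2.1, fun n => (hc n).2.2,
    a, mem_iInter.2 fun n => (c n).2.2 (ha n)⟩

theorem Good.wins {S U : Type} {F : Filter S} [F.NeBot] {Y : U → Set S} {r : U → U → Prop}
    (h : Good F Y r) : NonemptyWins F := by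
  obtain ⟨σ₀, -⟩ := h.dense Set.univ (by simp)
  have : Nonempty U := ⟨σ₀⟩
  choose! d hd using h.dense
  choose! s s1 s2 using h.step
  let st : List (Set S) → Option U := fun l =>
    List.rec none (fun A _ o => some (Option.elim o (d A) fun σ => s σ A)) l
  let t : List (Set S) → Set S := fun l => Option.elim (st l) Set.univ Y
  have key : ∀ (A : ℕ → Set S) n, A n ⊆ t (hist A n) → (A n)ᶜ ∉ F →
      ∃ σ', st (hist A (n + 1)) = some σ' ∧ Y σ' ⊆ A n ∧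
        ∀ σ, st (hist A n) = some σ → r σ' σ := by
    intro A n h₁ h₂
    refine ⟨_, rfl, ?_⟩
    change Y (Option.elim (st (hist A n)) _ _) ⊆ _ ∧
      ∀ σ, _ → r (Option.elim (st (hist A n)) _ _) σ
    simp only [t] at h₁
    generalize st (hist A n) = o at h₁
    cases o with
    | none => exact ⟨hd _ h₂, by simp⟩
    | some σ => exact ⟨s2 σ _ h₁ h₂, by rintro _ ⟨rfl⟩; exact s1 σ _ h₁ h₂⟩
  refine ⟨t, rfl, fun A n H => ?_, fun A H => ?_⟩
  · obtain ⟨σ', k₁, k₂, -⟩ := key A n (H n le_rfl).1 (H n le_rfl).2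
    simp only [t, k₁]
    exact ⟨k₂, h.pos σ'⟩
  · choose c c1 c2 c3 using fun n => key A n (H n).1 (H n).2
    obtain ⟨a, ha⟩ := h.win c fun n => c3 (n + 1) _ (c1 n)
    exact ⟨a, mem_iInter.2 fun n => c2 n (ha n)⟩

/-- Almost disjoint families of positive sets. -/
def AD {S : Type} (F : Filter S) (W : Set (Set S)) : Prop :=
  (∀ A ∈ W, Aᶜ ∉ F) ∧ W.Pairwise fun A B => (A ∩ B)ᶜ ∈ F

theorem good_sat {K : Type} [LinearOrder K] {Z : Sys K} (h : Z.Norm) (q₀ : Z.T)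
    (hs : ∀ W, AD (Z.fil q₀) W → #W ≤ #K) : ∃ (U : Type) (Y : U → Set K) (r : U → U → Prop),
    Good (Z.fil q₀) Y r := by
  classical
  have key : ∀ q, Z.R q q₀ → ∃ B ⊆ Z.X q, Bᶜ ∉ Z.fil q₀ ∧
      ∀ A ⊆ B, Aᶜ ∉ Z.fil q₀ → Aᶜ ∉ Z.fil q := by
    intro q r
    by_contra hn
    push Not at hn
    obtain ⟨W, a1, a2, a3⟩ := exists_max_pairwise (fun A B : Set K => (A ∩ B)ᶜ ∈ Z.fil q₀)
      (fun A B h => inter_comm A B ▸ h) {A | Aᶜ ∉ Z.fil q₀ ∧ Aᶜ ∈ Z.fil q}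
    obtain ⟨e⟩ := hs W ⟨fun A hA => (a1 hA).1, a2⟩
    have hq := Sys.fil_normal h q
    have hD := hq.2.2 (fun i => if k : ∃ A, e A = i then k.choose.1ᶜ else Set.univ) fun i => by
      split_ifs with k
      exacts [(a1 k.choose.2).2, Filter.univ_mem]
    have := hq.1
    obtain ⟨A, k₁, k₂, k₃⟩ := hn
      (Z.X q ∩ {j | ∀ i < j, j ∈ if k : ∃ A, e A = i then k.choose.1ᶜ else Set.univ})
      inter_subset_left fun c => by
        have h := Filter.inter_mem (Filter.inter_mem (Sys.X_mem q) hD) (Sys.fil_le r c)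
        rw [inter_compl_self] at h
        exact Filter.empty_notMem _ h
    have k₄ : ∀ B ∈ W, (A ∩ B)ᶜ ∈ Z.fil q₀ := fun B hB =>
      Filter.mem_of_superset ((Sys.fil_normal h q₀).2.1 (e ⟨B, hB⟩)) fun j hj c => by
        have k := (k₁ c.1).2 _ hj
        have k' : ∃ A, e A = e ⟨B, hB⟩ := ⟨_, rfl⟩
        rw [dif_pos k', e.injective k'.choose_spec] at k
        exact k c.2
    exact k₂ (by simpa using k₄ A (a3 A ⟨k₂, k₃⟩ k₄))
  choose B b1 b2 b3 using key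
  refine ⟨{q // Z.R q q₀}, fun q => B q.1 q.2, fun q' q => Z.R q'.1 q.1 ∧ Z.X q'.1 ⊆ B q.1 q.2,
    fun A hA => ?_, fun q => b2 _ _, fun q A h₁ h₂ => ?_, fun c hc => ?_⟩
  · obtain ⟨q, r, k⟩ := Sys.pos_iff.1 hA
    exact ⟨⟨q, r⟩, (b1 q r).trans k⟩
  · obtain ⟨q', r, k⟩ := Sys.pos_iff.1 (b3 _ _ A h₁ h₂)
    exact ⟨⟨q', Z.trans _ _ _ r q.2⟩, ⟨r, k.trans h₁⟩, (b1 _ _).trans k⟩
  · obtain ⟨a, ha⟩ := Z.win (fun n => (c n).1) fun n => (hc n).1
    exact ⟨a, fun n => (hc n).2 (ha (n + 1))⟩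

theorem suffix_step {α : Type} {l l' : List α} (h : l <:+ l') (hne : l ≠ l') :
    ∃ t, t :: l <:+ l' := by
  obtain ⟨m, rfl⟩ := h
  rcases m.eq_nil_or_concat with rfl | ⟨m', t, rfl⟩
  · exact absurd rfl hne
  · exact ⟨t, m', by simp⟩

theorem suffix_tri {α : Type} (l l' : List α) : l <:+ l' ∨ l' <:+ l ∨
    ∃ r t t', t ≠ t' ∧ t :: r <:+ l ∧ t' :: r <:+ l' := by
  induction l with
  | nil => exact Or.inl List.nil_suffix
  | cons t l ih =>
    rcases ih with h | h | ⟨r, a, b, h₁, h₂, h₃⟩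
    · by_cases e : l = l'
      · exact Or.inr (Or.inl (e ▸ List.suffix_cons t l))
      · obtain ⟨t', h'⟩ := suffix_step h e
        by_cases e' : t = t'
        · exact Or.inl (e' ▸ h')
        · exact Or.inr (Or.inr ⟨l, t, t', e', List.suffix_rfl, h'⟩)
    · exact Or.inr (Or.inl (h.trans (List.suffix_cons t l)))
    · exact Or.inr (Or.inr ⟨r, a, b, h₁, h₂.trans (List.suffix_cons t l), h₃⟩)

/-- Almost disjoint families of positive sets indexed by `τ`. -/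
def ADI {S : Type} (F : Filter S) (τ : Type) : Prop :=
  ∃ B : τ → Set S, (∀ t, (B t)ᶜ ∉ F) ∧ ∀ t t', t ≠ t' → (B t ∩ B t')ᶜ ∈ F

theorem AD.adi {S τ : Type} {F : Filter S} {W : Set (Set S)} (h : AD F W) (k : #τ ≤ #W) :
    ADI F τ := by
  obtain ⟨e⟩ := k
  exact ⟨fun t => (e t).1, fun t => h.1 _ (e t).2, fun t t' hne =>
    h.2 (e t).2 (e t').2 fun c => hne (e.injective (Subtype.ext c))⟩

theorem good_tree {S τ : Type} (Z : Sys S) (P : τ → Z.T → Z.T → Prop)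
    (hP : ∀ t q p, Z.R p q → ∃ p', Z.R p' p ∧ P t q p') (d : Set S → τ)
    (hd : ∀ A q p, P (d A) q p → Z.X p ⊆ A ∨ Z.X p ⊆ Aᶜ) (hs : ∀ q, ADI (Z.fil q) τ) :
    ∃ (Z' : Sys S) (pos : Z'.T → Z.T), (∀ l, Z'.X l = Z.X (pos l)) ∧
      (∀ l t, ∃ l', Z'.R l' l ∧ P t (pos l) (pos l')) ∧ Good (Z'.fil Z'.root) Z'.X Z'.R := by
  have key : ∀ q, ∃ nx : τ → Z.T, (∀ t, Z.R (nx t) q ∧ P t q (nx t)) ∧
      ∀ t t', t ≠ t' → (Z.X (nx t) ∩ Z.X (nx t'))ᶜ ∈ Z.fil q := by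
    intro q
    obtain ⟨B, w1, w2⟩ := hs q
    have : ∀ t : τ, ∃ p, (Z.R p q ∧ P t q p) ∧ Z.X p ⊆ B t := by
      intro t
      obtain ⟨p₁, r₁, k₁⟩ := Sys.pos_iff.1 (w1 t)
      obtain ⟨p₂, r₂, k₂⟩ := hP t q p₁ r₁
      exact ⟨p₂, ⟨Z.trans _ _ _ r₂ r₁, k₂⟩, (Z.mono _ _ r₂).trans k₁⟩
    choose nx n1 n2 using this
    exact ⟨nx, n1, fun t t' hne => Filter.mem_of_superset (w2 t t' hne)
      (compl_subset_compl.2 (inter_subset_inter (n2 t) (n2 t')))⟩
  choose nx n1 n2 using key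
  let pos : List τ → Z.T := fun l => List.rec Z.root (fun t _ q => nx q t) l
  have hR : ∀ l l', l <:+ l' → l ≠ l' → Z.R (pos l') (pos l) := by
    intro l l' h₁ h₂
    induction l' with
    | nil => exact absurd (List.suffix_nil.1 h₁) h₂
    | cons t l' ih =>
      have h₃ := (List.suffix_cons_iff.1 h₁).resolve_left h₂
      by_cases e : l = l'
      · exact e ▸ (n1 _ t).1
      · exact Z.trans _ _ _ (n1 _ t).1 (ih h₃ e)
  have hM : ∀ l l', l <:+ l' → Z.X (pos l') ⊆ Z.X (pos l) := fun l l' h₁ => by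
    by_cases e : l = l'
    exacts [e ▸ Subset.rfl, Z.mono _ _ (hR l l' h₁ e)]
  have hc : ∀ t (l : List τ), l <:+ t :: l ∧ l ≠ t :: l := fun t l =>
    ⟨List.suffix_cons t l, (List.cons_ne_self t l).symm⟩
  let Z' : Sys S :=
    { T := List τ
      root := []
      R := fun l' l => l <:+ l' ∧ l ≠ l'
      X := fun l => Z.X (pos l)
      trans := fun a b c h₁ h₂ => ⟨h₂.1.trans h₁.1, fun e =>
        h₁.2 (List.IsSuffix.eq_of_length_le h₁.1 (e ▸ h₂.1.length_le))⟩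
      mono := fun a b h => hM _ _ h.1
      meas := fun l A => ⟨d A :: l, hc _ _, hd _ _ _ (n1 _ _).2⟩
      win := fun c h => Z.win (fun n => pos (c n)) fun n => hR _ _ (h n).1 (h n).2
      nt := fun l => Z.nt _ }
  refine ⟨Z', pos, fun _ => rfl, fun l t => ⟨t :: l, hc _ _, (n1 _ _).2⟩, fun A hA => ?_,
    fun l => ?_, fun l A h₁ h₂ => ?_, Z'.win⟩
  · obtain ⟨l, -, k⟩ := Sys.pos_iff.1 hA
    exact ⟨l, k⟩
  · exact Sys.pos_iff.2 ⟨d ∅ :: l, ⟨List.nil_suffix, by simp [Z']⟩, hM _ _ (hc _ _).1⟩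
  · obtain ⟨l', -, k⟩ := Sys.pos_iff.1 h₂
    rcases suffix_tri l l' with c | c | ⟨r, t, t', c₁, c₂, c₃⟩
    · exact ⟨d ∅ :: l', ⟨c.trans (hc _ _).1, fun e => by
        have := c.length_le; rw [e] at this; simp at this⟩, (hM _ _ (hc _ _).1).trans k⟩
    · exact ⟨d ∅ :: l, hc _ _, (hM _ _ (c.trans (hc _ _).1)).trans k⟩
    · refine absurd ?_ (n2 (pos r) t t' c₁ (pos l') (hR r l' ((hc _ _).1.trans c₃) fun e => by
        have := c₃.length_le; rw [← e] at this; simp at this))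
      rw [compl_compl]
      exact subset_inter ((k.trans h₁).trans (hM _ _ c₂)) (hM _ _ c₃)

theorem norm_tree {K : Type} [LinearOrder K] {Z : Sys K} (h : Z.Norm)
    (hs : ∀ q, ADI (Z.fil q) ((K → K) × Set K)) :
    ∃ Z' : Sys K, Z'.Norm ∧ Good (Z'.fil Z'.root) Z'.X Z'.R := by
  obtain ⟨Z', pos, z1, z2, z3⟩ := good_tree Z (fun (t : (K → K) × Set K) q p =>
    (Z.X p ⊆ t.2 ∨ Z.X p ⊆ t.2ᶜ) ∧ ((∀ a ∈ Z.X q, t.1 a < a) → ∃ i, ∀ a ∈ Z.X p, t.1 a = i))
    (fun t q p₁ r₁ => by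
      obtain ⟨p₂, r₂, k₂⟩ := Z.meas p₁ t.2
      by_cases c : ∀ a ∈ Z.X q, t.1 a < a
      · obtain ⟨p₃, r₃, k₃⟩ := h.2 p₂ t.1 fun a ha => c a (Z.mono _ _ (Z.trans _ _ _ r₂ r₁) ha)
        have m := Z.mono _ _ r₃
        exact ⟨p₃, Z.trans _ _ _ r₃ r₂, k₂.imp m.trans m.trans, fun _ => k₃⟩
      · exact ⟨p₂, r₂, k₂, fun c' => absurd c' c⟩)
    (fun A => (id, A)) (fun A q p k => k.1) hs
  refine ⟨Z', ⟨fun l i => ?_, fun l g hg => ?_⟩, z3⟩
  · obtain ⟨l', r, k, -⟩ := z2 l (id, Ioi i)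
    refine ⟨l', r, z1 l' ▸ k.resolve_right fun k => ?_⟩
    obtain ⟨p, r, k'⟩ := h.1 (pos l') i
    obtain ⟨a, ha⟩ := (Z.nt p).nonempty
    exact k (Z.mono _ _ r ha) (k' ha)
  · obtain ⟨l', r, -, k⟩ := z2 l (g, ∅)
    exact ⟨l', r, z1 l' ▸ k (z1 l ▸ hg)⟩

theorem prod_adi {K S : Type} [LinearOrder K] {Z : Sys K} (h : Z.Norm) (e : S ≃ K × K)
    (hs : ∀ q (i : K), ADI (Z.fil q) (Set (Iio i))) (q : (Z.prod Z e).T) :
    ADI ((Z.prod Z e).fil q) (Set K) := by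
  choose B b1 b2 using fun i => hs (q.2 i) i
  obtain ⟨C, hC⟩ : ∃ C : K → Set K → Set K, ∀ i A, C i A = B i (Subtype.val ⁻¹' A) :=
    ⟨_, fun _ _ => rfl⟩
  refine ⟨fun A => {s | (e s).2 ∈ C (e s).1 A}, fun A => ?_, fun A A' hne p r c => ?_⟩
  · choose g g1 g2 using fun i => Sys.pos_iff.1 (hC i A ▸ b1 i (Subtype.val ⁻¹' A))
    obtain ⟨p, r, -⟩ := Z.meas q.1 ∅
    exact Sys.pos_iff.2 ⟨(p, g), ⟨r, fun i _ => g1 i⟩, fun s hs => g2 _ hs.2⟩
  · obtain ⟨i, hi⟩ := not_forall.1 (mt Set.ext hne)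
    obtain ⟨p', r', k⟩ := h.1 p.1 i
    obtain ⟨a, ha⟩ := (Z.nt p').nonempty
    have ha' := Z.mono _ _ r' ha
    refine b2 a (Subtype.val ⁻¹' A) (Subtype.val ⁻¹' A')
      (fun c' => hi (Set.ext_iff.1 c' ⟨i, k ha⟩)) (p.2 a) (r.2 a ha') fun j hj => ?_
    have := c (a := e.symm (a, j)) (by simpa [Sys.prod] using ⟨ha', hj⟩)
    simpa [← hC] using this

theorem main (κ : Cardinal.{0}) (hw : ChooseWins κ.ord.ToType) :
    ∃ μ, IsLeast {ν : Cardinal.{0} | Survives ν.ord.ToType} μ ∧ 𝔠 < μ ∧ μ ≤ κ ∧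
      ((∃ ν < μ, Order.succ μ < 2 ^ ν) ∨ ∃ F : Filter μ.ord.ToType,
        F.NeBot ∧ CardinalInterFilter F μ ∧ (∀ x, {x}ᶜ ∈ F) ∧ Precipitous F ∧ NonemptyWins F ∧
          (2 ^ μ = Order.succ μ → IsNormal F)) := by
  have hκ : Survives κ.ord.ToType := hw.imp fun s hs A hA =>
    ⟨fun n => (hs A hA).mono (iInter_subset _ n), (hs A hA).nonempty⟩
  obtain ⟨μ, hμ, hl⟩ := wellFounded_lt.has_min {ν : Cardinal.{0} | Survives ν.ord.ToType} ⟨κ, hκ⟩
  obtain ⟨Z₁⟩ := sys_of_surv hμ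
  have h1 : 𝔠 < μ := by simpa using continuum_lt Z₁
  have h0 : ℵ₀ ≤ μ := aleph0_le_continuum.trans h1.le
  have hmin : ∀ S : Type, #S < μ → IsEmpty (Sys S) := fun S h => ⟨fun Z => by
    obtain ⟨e⟩ := Cardinal.eq.1 (mk_ord_toType #S).symm
    exact hl _ (surv_of_sys (Z.proj e Z.root fun q _ => (Z.nt q).image e.injective)) h⟩
  refine ⟨μ, ⟨hμ, fun ν hν => not_lt.1 (hl ν hν)⟩, h1, not_lt.1 (hl κ hκ),
    or_iff_not_imp_left.2 fun hg => ?_⟩
  push Not at hg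
  obtain ⟨Z, hZ⟩ := exists_norm h0 hmin Z₁
  obtain ⟨Z', q, f1, U, Y, r, f2⟩ : ∃ (Z' : Sys μ.ord.ToType) (q : Z'.T),
      (2 ^ μ = Order.succ μ → IsNormal (Z'.fil q)) ∧
      ∃ (U : Type) (Y : U → Set _) (r : U → U → Prop), Good (Z'.fil q) Y r := by
    by_cases c : ∃ q, ∀ W, AD (Z.fil q) W → #W ≤ #(μ.ord.ToType)
    · obtain ⟨q, hq⟩ := c
      exact ⟨Z, q, fun _ => Sys.fil_normal hZ q, good_sat hZ q hq⟩
    push Not at c
    have c' : ∀ q (τ : Type), #τ ≤ Order.succ μ → ADI (Z.fil q) τ := fun q τ h => by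
      obtain ⟨W, w1, w2⟩ := c q
      rw [mk_ord_toType] at w2
      exact w1.adi (h.trans (Order.succ_le_of_lt w2))
    by_cases g : 2 ^ μ = Order.succ μ
    · obtain ⟨Z', z1, z2⟩ := norm_tree hZ fun q => c' q _ (by
        rw [mk_prod, lift_id, lift_id, mk_set, ← power_def, mk_ord_toType, power_self_eq h0,
          mul_eq_self (h0.trans (cantor _).le), g])
      exact ⟨Z', _, fun _ => Sys.fil_normal z1 _, _, _, _, z2⟩
    · obtain ⟨e⟩ : Nonempty (μ.ord.ToType ≃ μ.ord.ToType × μ.ord.ToType) := by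
        rw [← Cardinal.eq, mk_prod, lift_id, mk_ord_toType, mul_eq_self h0]
      obtain ⟨Z', -, -, -, z⟩ := good_tree (Z.prod Z e)
        (fun A _ p => (Z.prod Z e).X p ⊆ A ∨ (Z.prod Z e).X p ⊆ Aᶜ)
        (fun A _ p _ => (Z.prod Z e).meas p A) id (fun _ _ _ k => k)
        (prod_adi hZ e fun q i => c' q _ (by rw [mk_set]; exact hg _ (mk_Iio_tt i)))
      exact ⟨Z', _, fun k => absurd k g, _, _, _, z⟩
  have := Sys.fil_neBot q
  exact ⟨_, this, Sys.fil_complete hmin q, Sys.fil_single q, f2.precip, f2.wins, f1⟩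

end Pool.Agent.MP_4faeaf_lc.Conv
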